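import Pool.Agent.H41.HC.Stmt

/-! CO1, CO2: codings with all points `x i` and the points `y i 0` with `K i`. -/

set_option autoImplicit false

open Set

namespace Pool.Agent.HC

/-- the points `z`, `x i` and `y i 0` with `K i` -/
def Ak (z : ℕ) (x : ℕ → ℕ) (y : ℕ → ℕ → ℕ) (K : ℕ → Bool) : Set ℕ :=
  {w | w = z ∨ (∃ i, w = x i) ∨ ∃ i, K i = true ∧ w = y i 0}

theorem ms_ex (Q : ℕ → Prop) : MeasurableSet {K : ℕ → Bool | ∃ i, K i = true ∧ Q i} := by
  rw [show {K : ℕ → Bool | ∃ i, K i = true ∧ Q i} =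
    ⋃ i, ({K : ℕ → Bool | K i = true} ∩ {_K : ℕ → Bool | Q i}) by
      ext K
      simp]
  refine MeasurableSet.iUnion fun i => MeasurableSet.inter ?_ (MeasurableSet.const _)
  exact (measurable_pi_apply (X := fun _ : ℕ => Bool) i) (measurableSet_singleton true)

theorem ms_Ak (z : ℕ) (x : ℕ → ℕ) (y : ℕ → ℕ → ℕ) (v : ℕ) :
    MeasurableSet {K : ℕ → Bool | v ∈ Ak z x y K} := by
  rw [show {K : ℕ → Bool | v ∈ Ak z x y K} = {_K : ℕ → Bool | v = z ∨ ∃ i, v = x i} ∪
      {K : ℕ → Bool | ∃ i, K i = true ∧ v = y i 0} by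
    ext K
    simp only [Ak, mem_ofPred_eq, mem_union]
    tauto]
  exact (MeasurableSet.const _).union (ms_ex _)

section

variable {L : Type} {c : ℕ → ℕ → L}

theorem base (hS : Small c) {s : ℕ → ℕ} {X α β A γ B μ ν : L × L} {z : ℕ} {x : ℕ → ℕ}
    {y : ℕ → ℕ → ℕ} (hC : Cfg c s X α β A γ B x y) (hs : ∀ i, 1 ≤ s i)
    (hP : Par c s z μ ν x y) (hμν : μ ≠ ν) :
    ∃ K K' : ℕ → Bool, K ≠ K' ∧ ∃ (g : ℕ → ℕ) (σ : Equiv.Perm ℕ),
      (∀ i, g (x i) = x (σ i)) ∧
      (∀ i, K i = true → ∃ j, K' j = true ∧ g (y i 0) = y j 0) ∧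
      (∀ j, K' j = true → ∃ i, K i = true ∧ g (y i 0) = y j 0) ∧
      (∀ i j, pr c (x (σ i)) (x (σ j)) = pr c (x i) (x j)) ∧
      (∀ i j, K j = true → pr c (x (σ i)) (g (y j 0)) = pr c (x i) (y j 0)) := by
  obtain ⟨K, K', hne, g, hg, hpr, hgz⟩ := hS (Ak z x y) z (ms_Ak z x y)
    (fun K => (infinite_range_of_injective hC.xi).mono (by
      rintro _ ⟨i, rfl⟩
      exact Or.inr (Or.inl ⟨i, rfl⟩))) (fun K => Or.inl rfl)
  have hzA : ∀ K, z ∈ Ak z x y K := fun K => Or.inl rfl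
  have hxA : ∀ K i, x i ∈ Ak z x y K := fun K i => Or.inr (Or.inl ⟨i, rfl⟩)
  have hyA : ∀ K i, K i = true → y i 0 ∈ Ak z x y K := fun K i h => Or.inr (Or.inr ⟨i, h, rfl⟩)
  have hy0 : ∀ i, pr c z (y i 0) = ν := fun i => hP.py i 0 (hs i)
  have hgne : ∀ w ∈ Ak z x y K, w ≠ z → g w ≠ z := by
    intro w hw hwz h
    exact hwz (hg.injOn hw (hzA K) (h.trans hgz.symm))
  have hgpr : ∀ w ∈ Ak z x y K, pr c z (g w) = pr c z w := by
    intro w hw
    have h1 := hpr z (hzA K) w hw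
    rwa [hgz] at h1
  have hxx : ∀ i, ∃ j, g (x i) = x j := by
    intro i
    rcases hg.mapsTo (hxA K i) with h | ⟨j, h⟩ | ⟨j, -, h⟩
    · exact absurd h (hgne _ (hxA K i) (hP.zx i).symm)
    · exact ⟨j, h⟩
    · have h1 := hgpr _ (hxA K i)
      rw [h, hy0, hP.px] at h1
      exact absurd h1.symm hμν
  have hyy : ∀ i, K i = true → ∃ j, K' j = true ∧ g (y i 0) = y j 0 := by
    intro i hi
    rcases hg.mapsTo (hyA K i hi) with h | ⟨j, h⟩ | ⟨j, hj, h⟩
    · exact absurd h (hgne _ (hyA K i hi) (hP.zy i 0 (hs i)).symm)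
    · have h1 := hgpr _ (hyA K i hi)
      rw [h, hy0, hP.px] at h1
      exact absurd h1 hμν
    · exact ⟨j, hj, h⟩
  choose σ hσ using hxx
  have hσi : Function.Injective σ := by
    intro i j h
    have h1 : g (x i) = g (x j) := by rw [hσ, hσ, h]
    exact hC.xi (hg.injOn (hxA K i) (hxA K j) h1)
  have hσs : Function.Surjective σ := by
    intro j
    obtain ⟨w, hw, hwj⟩ := hg.surjOn (hxA K' j)
    rcases hw with rfl | ⟨i, rfl⟩ | ⟨i, hi, rfl⟩
    · rw [hgz] at hwj
      exact absurd hwj (hP.zx j)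
    · rw [hσ] at hwj
      exact ⟨i, hC.xi hwj⟩
    · obtain ⟨k, -, hk⟩ := hyy i hi
      rw [hk] at hwj
      exact absurd hwj.symm (hC.xy j k 0 (hs k))
  refine ⟨K, K', hne, g, Equiv.ofBijective σ ⟨hσi, hσs⟩, hσ, hyy, ?_, ?_, ?_⟩
  · intro j hj
    obtain ⟨w, hw, hwj⟩ := hg.surjOn (hyA K' j hj)
    rcases hw with rfl | ⟨i, rfl⟩ | ⟨i, hi, rfl⟩
    · rw [hgz] at hwj
      exact absurd hwj (hP.zy j 0 (hs j))
    · rw [hσ] at hwj
      exact absurd hwj (hC.xy _ j 0 (hs j))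
    · exact ⟨i, hi, hwj⟩
  · intro i j
    have h1 := hpr _ (hxA K i) _ (hxA K j)
    rw [hσ, hσ] at h1
    exact h1
  · intro i j hj
    have h1 := hpr _ (hxA K i) _ (hyA K j hj)
    rw [hσ] at h1
    exact h1

theorem card_perm (σ : Equiv.Perm ℕ) {S S' : Set ℕ} (h : ∀ k, k ∈ S ↔ σ k ∈ S') :
    S.ncard = S'.ncard := by
  have h1 : σ '' S = S' := by
    ext k
    constructor
    · rintro ⟨j, hj, rfl⟩
      exact (h j).1 hj
    · intro hk
      refine ⟨σ.symm k, (h _).2 ?_, σ.apply_symm_apply k⟩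
      rwa [σ.apply_symm_apply]
  rw [← h1, ncard_image_of_injective _ σ.injective]

theorem ncard_Iio' (i : ℕ) : (Iio i : Set ℕ).ncard = i := by
  rw [← Nat.card_coe_set_eq, Nat.card_eq_fintype_card]
  simp

theorem ncard_Iic' (i : ℕ) : (Iic i : Set ℕ).ncard = i + 1 := by
  rw [← Nat.card_coe_set_eq, Nat.card_eq_fintype_card]
  simp

end

theorem pf_CO1 (L : Type) [Finite L] : T_CO1 L := by
  intro c hS s X α β A γ B μ ν z x y hC hs hP hμν
  by_contra hne
  obtain ⟨K, K', hKK', g, σ, hσ, hyy, hyy', -, hxy⟩ := base hS hC hs hP hμν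
  have hval : ∀ i k, pr c (x k) (y i 0) = α ↔ k < i ∨ (k = i ∧ γ = α) := by
    intro i k
    rcases lt_trichotomy k i with h | rfl | h
    · rw [hC.ax k i 0 h (hs i)]
      simp [h]
    · rw [hC.gg k 0 (hs k)]
      simp
    · have h1 : pr c (x k) (y i 0) = β.swap := by
        rw [← hC.bx i k 0 h (hs i)]
        rfl
      rw [h1]
      constructor
      · intro h2
        exact absurd h2.symm hne
      · rintro (h2 | ⟨h2, -⟩) <;> omega
  have hcard : ∀ i j, ({k | pr c (x k) (y i 0) = α} : Set ℕ).ncard =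
      ({k | pr c (x k) (y j 0) = α} : Set ℕ).ncard → i = j := by
    intro i j h
    by_cases hγ : γ = α
    · have h1 : ∀ i, {k | pr c (x k) (y i 0) = α} = Iic i := by
        intro i
        ext k
        rw [mem_ofPred_eq, hval, mem_Iic]
        simp only [hγ, and_true]
        omega
      rw [h1, h1, ncard_Iic', ncard_Iic'] at h
      omega
    · have h1 : ∀ i, {k | pr c (x k) (y i 0) = α} = Iio i := by
        intro i
        ext k
        rw [mem_ofPred_eq, hval, mem_Iio]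
        simp only [hγ, and_false, or_false]
      rw [h1, h1, ncard_Iio', ncard_Iio'] at h
      omega
  have key : ∀ i j, K i = true → g (y i 0) = y j 0 → i = j := by
    intro i j hi hj
    refine hcard i j (card_perm σ fun k => ?_)
    rw [mem_ofPred_eq, mem_ofPred_eq, ← hj, hxy k i hi]
  apply hKK'
  funext i
  rw [Bool.eq_iff_iff]
  constructor
  · intro hi
    obtain ⟨j, hj, hj2⟩ := hyy i hi
    rwa [key i j hi hj2]
  · intro hi
    obtain ⟨j, hj, hj2⟩ := hyy' i hi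
    rwa [← key j i hj hj2]

theorem pf_CO2 (L : Type) [Finite L] : T_CO2 L := by
  intro c hS s X α β A γ B μ ν z x y hC hs hP hμν hX hαβ
  by_contra hγ
  obtain ⟨K, K', hKK', g, σ, hσ, hyy, hyy', hxx, hxy⟩ := base hS hC hs hP hμν
  have hset : ∀ i, {k | k ≠ i ∧ pr c (x k) (x i) = X} = Iio i := by
    intro i
    ext k
    rw [mem_ofPred_eq, mem_Iio]
    rcases lt_trichotomy k i with h | rfl | h
    · rw [hC.xx k i h]
      simp [h, h.ne]
    · simp
    · have h1 : pr c (x k) (x i) = X.swap := by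
        rw [← hC.xx i k h]
        rfl
      rw [h1]
      constructor
      · rintro ⟨-, h2⟩
        exact absurd h2.symm hX
      · intro h2
        omega
  have hfix : ∀ i, σ i = i := by
    intro i
    have h1 : (Iio i : Set ℕ).ncard = (Iio (σ i) : Set ℕ).ncard := by
      rw [← hset, ← hset]
      refine card_perm σ fun k => ?_
      rw [mem_ofPred_eq, mem_ofPred_eq, hxx, Ne, Ne, σ.injective.eq_iff]
    rw [ncard_Iio', ncard_Iio'] at h1
    exact h1.symm
  have hval : ∀ i k, pr c (x i) (y k 0) ≠ α → i = k := by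
    intro i k h
    rcases lt_trichotomy i k with h1 | h1 | h1
    · exact absurd (hC.ax i k 0 h1 (hs k)) h
    · exact h1
    · have h2 : pr c (x i) (y k 0) = β.swap := by
        rw [← hC.bx k i 0 h1 (hs k)]
        rfl
      rw [h2, ← hαβ] at h
      exact absurd rfl h
  have key : ∀ i j, K i = true → g (y i 0) = y j 0 → i = j := by
    intro i j hi hj
    refine hval i j ?_
    have h1 := hxy i i hi
    rw [hfix, hj, hC.gg i 0 (hs i)] at h1
    rw [h1]
    exact hγ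
  apply hKK'
  funext i
  rw [Bool.eq_iff_iff]
  constructor
  · intro hi
    obtain ⟨j, hj, hj2⟩ := hyy i hi
    rwa [key i j hi hj2]
  · intro hi
    obtain ⟨j, hj, hj2⟩ := hyy' i hi
    rwa [← key j i hj hj2]

end Pool.Agent.HC
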