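import Pool.Agent.H16.HC.CO1

/-! CO3: coding with all points `x i` and the blocks `y i` with `K i`. -/

set_option autoImplicit false

open Set

namespace Pool.Agent.HC

/-- the points `z`, `x i` and `y i m` with `K i`, `m < s i` -/
def Bk (z : ℕ) (x : ℕ → ℕ) (y : ℕ → ℕ → ℕ) (s : ℕ → ℕ) (K : ℕ → Bool) : Set ℕ :=
  {w | w = z ∨ (∃ i, w = x i) ∨ ∃ i, K i = true ∧ ∃ m, m < s i ∧ w = y i m}

theorem ms_Bk (z : ℕ) (x : ℕ → ℕ) (y : ℕ → ℕ → ℕ) (s : ℕ → ℕ) (v : ℕ) :
    MeasurableSet {K : ℕ → Bool | v ∈ Bk z x y s K} := by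
  rw [show {K : ℕ → Bool | v ∈ Bk z x y s K} = {_K : ℕ → Bool | v = z ∨ ∃ i, v = x i} ∪
      {K : ℕ → Bool | ∃ i, K i = true ∧ ∃ m, m < s i ∧ v = y i m} by
    ext K
    simp only [Bk, mem_ofPred_eq, mem_union]
    tauto]
  exact (MeasurableSet.const _).union (ms_ex _)

theorem pf_CO3 (L : Type) [Finite L] : T_CO3 L := by
  intro c hS s X α β A γ B μ ν z x y hC hs hP hμν hαβ
  by_contra hγ
  obtain ⟨K, K', hne, g, hg, hpr, hgz⟩ := hS (Bk z x y s) z (ms_Bk z x y s)
    (fun K => (infinite_range_of_injective hC.xi).mono (by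
      rintro _ ⟨i, rfl⟩
      exact Or.inr (Or.inl ⟨i, rfl⟩))) (fun K => Or.inl rfl)
  have hzA : ∀ K, z ∈ Bk z x y s K := fun K => Or.inl rfl
  have hxA : ∀ K i, x i ∈ Bk z x y s K := fun K i => Or.inr (Or.inl ⟨i, rfl⟩)
  have hgpr : ∀ w ∈ Bk z x y s K, pr c z (g w) = pr c z w := by
    intro w hw
    have h1 := hpr z (hzA K) w hw
    rwa [hgz] at h1
  have hxx : ∀ i, ∃ j, g (x i) = x j := by
    intro i
    rcases hg.mapsTo (hxA K i) with h | ⟨j, h⟩ | ⟨j, -, m, hm, h⟩
    · exact absurd (hg.injOn (hxA K i) (hzA K) (h.trans hgz.symm)) (hP.zx i).symm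
    · exact ⟨j, h⟩
    · have h1 := hgpr _ (hxA K i)
      rw [h, hP.py j m hm, hP.px] at h1
      exact absurd h1.symm hμν
  choose σ hσ using hxx
  have hσs : ∀ j, ∃ i, σ i = j := by
    intro j
    obtain ⟨w, hw, hwj⟩ := hg.surjOn (hxA K' j)
    rcases hw with rfl | ⟨i, rfl⟩ | ⟨i, hi, m, hm, rfl⟩
    · rw [hgz] at hwj
      exact absurd hwj (hP.zx j)
    · rw [hσ] at hwj
      exact ⟨i, hC.xi hwj⟩
    · have h1 := hgpr _ (Or.inr (Or.inr ⟨i, hi, m, hm, rfl⟩))
      rw [hwj, hP.px, hP.py i m hm] at h1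
      exact absurd h1 hμν
  -- the points `y` with label `γ`
  let D : (ℕ → Bool) → ℕ → Set ℕ := fun K i =>
    {w | w ∈ Bk z x y s K ∧ w ≠ z ∧ pr c z w = ν ∧ pr c (x i) w = γ}
  have hD : ∀ K i, D K i = if K i = true then (fun m => y i m) '' (Iio (s i)) else ∅ := by
    intro K i
    ext w
    constructor
    · rintro ⟨hw, hwz, hwν, hwγ⟩
      rcases hw with rfl | ⟨k, rfl⟩ | ⟨k, hk, m, hm, rfl⟩
      · exact absurd rfl hwz
      · rw [hP.px] at hwν
        exact absurd hwν hμν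
      · have hik : i = k := by
          rcases lt_trichotomy i k with h | h | h
          · rw [hC.ax i k m h hm] at hwγ
            exact absurd hwγ.symm hγ
          · exact h
          · have h1 : pr c (x i) (y k m) = β.swap := by
              rw [← hC.bx k i m h hm]
              rfl
            rw [h1, ← hαβ] at hwγ
            exact absurd hwγ.symm hγ
        subst hik
        rw [if_pos hk]
        exact ⟨m, hm, rfl⟩
    · intro hw
      by_cases hk : K i = true
      · rw [if_pos hk] at hw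
        obtain ⟨m, hm, rfl⟩ := hw
        have hm' : m < s i := hm
        exact ⟨Or.inr (Or.inr ⟨i, hk, m, hm', rfl⟩), (hP.zy i m hm').symm, hP.py i m hm',
          hC.gg i m hm'⟩
      · rw [if_neg hk] at hw
        exact absurd hw (notMem_empty w)
  have hcard : ∀ K i, (D K i).ncard = if K i = true then i + 2 else 0 := by
    intro K i
    rw [hD]
    split_ifs
    · rw [ncard_image_of_injOn, ncard_Iio', hs]
      intro m hm m' hm' h
      exact (hC.yi i m i m' hm hm' h).2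
    · exact ncard_empty ℕ
  have himg : ∀ i, g '' D K i = D K' (σ i) := by
    intro i
    ext w
    constructor
    · rintro ⟨v, ⟨hv, hvz, hvν, hvγ⟩, rfl⟩
      refine ⟨hg.mapsTo hv, fun h => hvz (hg.injOn hv (hzA K) (h.trans hgz.symm)), ?_, ?_⟩
      · rw [hgpr v hv, hvν]
      · rw [← hσ, hpr _ (hxA K i) v hv, hvγ]
    · rintro ⟨hw, hwz, hwν, hwγ⟩
      obtain ⟨v, hv, rfl⟩ := hg.surjOn hw
      refine ⟨v, ⟨hv, fun h => hwz ?_, ?_, ?_⟩, rfl⟩
      · rw [h, hgz]
      · rw [← hgpr v hv, hwν]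
      · rw [← hpr _ (hxA K i) v hv, hσ, hwγ]
  have hcc : ∀ i, (D K i).ncard = (D K' (σ i)).ncard := by
    intro i
    rw [← himg, ncard_image_of_injOn]
    exact hg.injOn.mono fun v hv => hv.1
  apply hne
  funext i
  rw [Bool.eq_iff_iff]
  constructor
  · intro hi
    have h1 := hcc i
    rw [hcard, hcard, if_pos hi] at h1
    split_ifs at h1 with h2
    · have h3 : σ i = i := by omega
      rwa [h3] at h2
  · intro hi
    obtain ⟨j, rfl⟩ := hσs i
    have h1 := hcc j
    rw [hcard, hcard, if_pos hi] at h1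
    split_ifs at h1 with h2
    · have h3 : σ j = j := by omega
      rwa [h3]

end Pool.Agent.HC
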