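import Pool.Agent.H16.HC.CO1

/-! CO4: coding with all points `x i` and `y i 0` with `K i`, without a marked point. -/

set_option autoImplicit false

open Set

namespace Pool.Agent.HC

theorem pf_CO4 (L : Type) [Finite L] : T_CO4 L := by
  classical
  intro c hS s α A γ B x y hC hs hα hA
  obtain ⟨K, K', hne, g, hg, hpr, -⟩ := hS (Ak (x 0) x y) (x 0) (ms_Ak (x 0) x y)
    (fun K => (infinite_range_of_injective hC.xi).mono (by
      rintro _ ⟨i, rfl⟩
      exact Or.inr (Or.inl ⟨i, rfl⟩))) (fun K => Or.inl rfl)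
  have hmem : ∀ K w, w ∈ Ak (x 0) x y K ↔ (∃ i, w = x i) ∨ ∃ i, K i = true ∧ w = y i 0 := by
    intro K w
    constructor
    · rintro (h | h)
      · exact Or.inl ⟨0, h⟩
      · exact h
    · exact Or.inr
  have hAα : A ≠ α := by
    rintro rfl
    exact hα hA
  have hαs : α.swap ≠ α := fun h => hα h.symm
  have hdiag : ∀ v, pr c v v ≠ α := by
    rintro v rfl
    exact hα rfl
  -- the labels
  have pxx : ∀ k i, pr c (x k) (x i) = α ↔ k < i := by
    intro k i
    rcases lt_trichotomy k i with h | rfl | h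
    · rw [hC.xx k i h]
      simp [h]
    · simp [hdiag]
    · have h1 : pr c (x k) (x i) = α.swap := by
        rw [← hC.xx i k h]
        rfl
      rw [h1]
      constructor
      · intro h2
        exact absurd h2 hαs
      · intro h2
        omega
  have pxy : ∀ k i, pr c (x k) (y i 0) = α ↔ k < i ∨ (k = i ∧ γ = α) := by
    intro k i
    rcases lt_trichotomy k i with h | rfl | h
    · rw [hC.ax k i 0 h (hs i)]
      simp [h]
    · rw [hC.gg k 0 (hs k)]
      simp
    · have h1 : pr c (x k) (y i 0) = A := by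
        rw [hA, ← hC.bx i k 0 h (hs i)]
        rfl
      rw [h1]
      constructor
      · intro h2
        exact absurd h2 hAα
      · rintro (h2 | ⟨h2, -⟩) <;> omega
  have pyx : ∀ k i, pr c (y k 0) (x i) = α ↔ (k = i ∧ γ = α.swap) := by
    intro k i
    rcases lt_trichotomy k i with h | rfl | h
    · rw [hC.bx k i 0 h (hs k)]
      constructor
      · intro h2
        exact absurd h2 hAα
      · rintro ⟨h2, -⟩
        omega
    · have h1 : pr c (y k 0) (x k) = γ.swap := by
        rw [← hC.gg k 0 (hs k)]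
        rfl
      rw [h1]
      constructor
      · intro h2
        rw [← h2]
        exact ⟨rfl, (Prod.swap_swap _).symm⟩
      · rintro ⟨-, h2⟩
        rw [h2, Prod.swap_swap]
    · have h1 : pr c (y k 0) (x i) = α.swap := by
        rw [← hC.ax i k 0 h (hs k)]
        rfl
      rw [h1]
      constructor
      · intro h2
        exact absurd h2 hαs
      · rintro ⟨h2, -⟩
        omega
  have pyy : ∀ k i, pr c (y k 0) (y i 0) ≠ α := by
    intro k i
    rcases lt_trichotomy k i with h | rfl | h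
    · rw [hC.aa k i 0 0 h (hs k) (hs i)]
      exact hAα
    · exact hdiag _
    · have h1 : pr c (y k 0) (y i 0) = A := by
        rw [hA, ← hC.aa i k 0 0 h (hs i) (hs k)]
        rfl
      rw [h1]
      exact hAα
  -- the sets `D`
  let D : (ℕ → Bool) → ℕ → Set ℕ := fun K v => {w | w ∈ Ak (x 0) x y K ∧ pr c w v = α}
  have hDx : ∀ K i, (D K (x i)).ncard = i + if γ = α.swap ∧ K i = true then 1 else 0 := by
    intro K i
    have e : D K (x i) = x '' (Iio i) ∪ if γ = α.swap ∧ K i = true then {y i 0} else ∅ := by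
      ext w
      simp only [D, mem_ofPred_eq, hmem, mem_union, mem_image, mem_Iio]
      constructor
      · rintro ⟨⟨k, rfl⟩ | ⟨k, hk, rfl⟩, h⟩
        · exact Or.inl ⟨k, (pxx k i).1 h, rfl⟩
        · obtain ⟨rfl, h2⟩ := (pyx k i).1 h
          right
          rw [if_pos ⟨h2, hk⟩]
          rfl
      · rintro (⟨k, hk, rfl⟩ | h)
        · exact ⟨Or.inl ⟨k, rfl⟩, (pxx k i).2 hk⟩
        · split_ifs at h with h2
          · have h3 : w = y i 0 := h
            subst h3
            exact ⟨Or.inr ⟨i, h2.2, rfl⟩, (pyx i i).2 ⟨rfl, h2.1⟩⟩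
          · exact absurd h (notMem_empty w)
    rw [e]
    have h1 : (x '' (Iio i)).ncard = i := by
      rw [ncard_image_of_injective _ hC.xi, ncard_Iio']
    split_ifs with h2
    · rw [union_singleton, ncard_insert_of_notMem, h1]
      · rintro ⟨k, -, hk⟩
        exact hC.xy k i 0 (hs i) hk
    · rw [union_empty, h1, add_zero]
  have hDy : ∀ K i, (D K (y i 0)).ncard = i + if γ = α then 1 else 0 := by
    intro K i
    split_ifs with h2
    · have e : D K (y i 0) = x '' (Iic i) := by
        ext w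
        simp only [D, mem_ofPred_eq, hmem, mem_image, mem_Iic]
        constructor
        · rintro ⟨⟨k, rfl⟩ | ⟨k, hk, rfl⟩, h⟩
          · refine ⟨k, ?_, rfl⟩
            rcases (pxy k i).1 h with h3 | ⟨h3, -⟩ <;> omega
          · exact absurd h (pyy k i)
        · rintro ⟨k, hk, rfl⟩
          refine ⟨Or.inl ⟨k, rfl⟩, (pxy k i).2 ?_⟩
          rcases hk.lt_or_eq with h3 | h3
          · exact Or.inl h3
          · exact Or.inr ⟨h3, h2⟩
      rw [e, ncard_image_of_injective _ hC.xi, ncard_Iic']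
    · have e : D K (y i 0) = x '' (Iio i) := by
        ext w
        simp only [D, mem_ofPred_eq, hmem, mem_image, mem_Iio]
        constructor
        · rintro ⟨⟨k, rfl⟩ | ⟨k, hk, rfl⟩, h⟩
          · refine ⟨k, ?_, rfl⟩
            rcases (pxy k i).1 h with h3 | ⟨-, h3⟩
            · exact h3
            · exact absurd h3 h2
          · exact absurd h (pyy k i)
        · rintro ⟨k, hk, rfl⟩
          exact ⟨Or.inl ⟨k, rfl⟩, (pxy k i).2 (Or.inl hk)⟩
      rw [e, ncard_image_of_injective _ hC.xi, ncard_Iio', add_zero]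
  let E : (ℕ → Bool) → ℕ → Set ℕ := fun K m =>
    {v | v ∈ Ak (x 0) x y K ∧ (D K v).ncard = m}
  have hDg : ∀ v ∈ Ak (x 0) x y K, (D K v).ncard = (D K' (g v)).ncard := by
    intro v hv
    have e : g '' D K v = D K' (g v) := by
      ext w
      constructor
      · rintro ⟨u, ⟨hu, hu2⟩, rfl⟩
        exact ⟨hg.mapsTo hu, by rw [hpr u hu v hv, hu2]⟩
      · rintro ⟨hw, hw2⟩
        obtain ⟨u, hu, rfl⟩ := hg.surjOn hw
        exact ⟨u, ⟨hu, by rw [← hpr u hu v hv, hw2]⟩, rfl⟩
    rw [← e, InjOn.ncard_image]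
    exact hg.injOn.mono fun u hu => hu.1
  have hEg : ∀ m, (E K m).Nontrivial ↔ (E K' m).Nontrivial := by
    intro m
    constructor
    · rintro ⟨u, ⟨hu, hu2⟩, v, ⟨hv, hv2⟩, huv⟩
      exact ⟨g u, ⟨hg.mapsTo hu, by rw [← hDg u hu, hu2]⟩, g v,
        ⟨hg.mapsTo hv, by rw [← hDg v hv, hv2]⟩, fun h => huv (hg.injOn hu hv h)⟩
    · rintro ⟨u, ⟨hu, hu2⟩, v, ⟨hv, hv2⟩, huv⟩
      obtain ⟨u, hu', rfl⟩ := hg.surjOn hu
      obtain ⟨v, hv', rfl⟩ := hg.surjOn hv
      exact ⟨u, ⟨hu', by rw [hDg u hu', hu2]⟩, v, ⟨hv', by rw [hDg v hv', hv2]⟩,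
        fun h => huv (by rw [h])⟩
  have hEm : ∀ K m v, v ∈ E K m ↔
      (∃ i, v = x i ∧ (i + if γ = α.swap ∧ K i = true then 1 else 0) = m) ∨
      ∃ i, K i = true ∧ v = y i 0 ∧ (i + if γ = α then 1 else 0) = m := by
    intro K m v
    constructor
    · rintro ⟨hv, hv2⟩
      rcases (hmem K v).1 hv with ⟨i, rfl⟩ | ⟨i, hi, rfl⟩
      · exact Or.inl ⟨i, rfl, by rw [← hDx, hv2]⟩
      · exact Or.inr ⟨i, hi, rfl, by rw [← hDy K, hv2]⟩
    · rintro (⟨i, rfl, h⟩ | ⟨i, hi, rfl, h⟩)
      · exact ⟨(hmem K _).2 (Or.inl ⟨i, rfl⟩), by rw [hDx, h]⟩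
      · exact ⟨(hmem K _).2 (Or.inr ⟨i, hi, rfl⟩), by rw [hDy, h]⟩
  have key : ∀ K m, (E K (if γ = α ∨ γ = α.swap then m + 1 else m)).Nontrivial ↔
      K m = true := by
    intro K m
    by_cases h1 : γ = α
    · have h2 : γ ≠ α.swap := by
        rw [h1]
        exact hα
      rw [if_pos (Or.inl h1)]
      constructor
      · rintro ⟨u, hu, v, hv, huv⟩
        rw [hEm] at hu hv
        simp only [h1, if_true] at hu hv
        simp only [show ¬ (α = α.swap) from hα, false_and, if_false, add_zero] at hu hv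
        rcases hu with ⟨i, rfl, rfl⟩ | ⟨i, hi, rfl, hi2⟩
        · rcases hv with ⟨j, rfl, rfl⟩ | ⟨j, hj, rfl, hj2⟩
          · exact absurd rfl huv
          · have : j = m := by omega
            rwa [← this]
        · have : i = m := by omega
          rwa [← this]
      · intro hK
        refine ⟨x (m + 1), (hEm _ _ _).2 (Or.inl ⟨m + 1, rfl, ?_⟩), y m 0,
          (hEm _ _ _).2 (Or.inr ⟨m, hK, rfl, ?_⟩), hC.xy _ _ _ (hs m)⟩
        · rw [if_neg fun h => h2 h.1]
        · rw [if_pos h1]
    · by_cases h2 : γ = α.swap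
      · rw [if_pos (Or.inr h2)]
        constructor
        · rintro ⟨u, hu, v, hv, huv⟩
          rw [hEm] at hu hv
          simp only [if_neg h1, add_zero] at hu hv
          by_contra hK
          have hx1 : ∀ i, (i + if γ = α.swap ∧ K i = true then 1 else 0) = m + 1 →
              i = m + 1 ∧ ¬ K (m + 1) = true := by
            intro i hi
            split_ifs at hi with h3
            · have : i = m := by omega
              exact absurd (this ▸ h3.2) hK
            · have : i = m + 1 := by omega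
              subst this
              exact ⟨rfl, fun h4 => h3 ⟨h2, h4⟩⟩
          rcases hu with ⟨i, rfl, hi⟩ | ⟨i, hi, rfl, hi2⟩
          · obtain ⟨rfl, h4⟩ := hx1 i hi
            rcases hv with ⟨j, rfl, hj⟩ | ⟨j, hj, rfl, hj2⟩
            · obtain ⟨rfl, -⟩ := hx1 j hj
              exact huv rfl
            · rw [hj2] at hj
              exact h4 hj
          · rw [hi2] at hi
            rcases hv with ⟨j, rfl, hj⟩ | ⟨j, hj, rfl, hj2⟩
            · exact (hx1 j hj).2 hi
            · apply huv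
              rw [hi2, hj2]
        · intro hK
          have hxm : x m ∈ E K (m + 1) :=
            (hEm _ _ _).2 (Or.inl ⟨m, rfl, by rw [if_pos ⟨h2, hK⟩]⟩)
          by_cases h3 : K (m + 1) = true
          · exact ⟨x m, hxm, y (m + 1) 0,
              (hEm _ _ _).2 (Or.inr ⟨m + 1, h3, rfl, by rw [if_neg h1]⟩), hC.xy _ _ _ (hs _)⟩
          · refine ⟨x m, hxm, x (m + 1), (hEm _ _ _).2 (Or.inl ⟨m + 1, rfl, ?_⟩), ?_⟩
            · rw [if_neg fun h => h3 h.2]
            · intro h
              have := hC.xi h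
              omega
      · rw [if_neg (by tauto)]
        constructor
        · rintro ⟨u, hu, v, hv, huv⟩
          rw [hEm] at hu hv
          simp only [h1, h2, false_and, if_false, add_zero] at hu hv
          rcases hu with ⟨i, rfl, rfl⟩ | ⟨i, hi, rfl, rfl⟩
          · rcases hv with ⟨j, rfl, rfl⟩ | ⟨j, hj, rfl, rfl⟩
            · exact absurd rfl huv
            · exact hj
          · exact hi
        · intro hK
          refine ⟨x m, (hEm _ _ _).2 (Or.inl ⟨m, rfl, ?_⟩), y m 0,
            (hEm _ _ _).2 (Or.inr ⟨m, hK, rfl, ?_⟩), hC.xy _ _ _ (hs m)⟩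
          · rw [if_neg fun h => h2 h.1, add_zero]
          · rw [if_neg h1, add_zero]
  apply hne
  funext m
  rw [Bool.eq_iff_iff, ← key K m, ← key K' m]
  exact hEg _

end Pool.Agent.HC
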